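import Mathlib

namespace Pool.Agent.Results.MP_a7b7fa_al.Example

open MvPolynomial
open scoped commutatorElement

theorem sub_step {G : Type} [Group G] (g : G) (A B : Subgroup G) (hAB : A ≤ B)
    (h1 : ∀ b ∈ B, ∀ a ∈ A, b * a * b⁻¹ ∈ A) (h2 : ∀ b ∈ B, b * g * b⁻¹ * g⁻¹ ∈ A)
    (h : (Subgroup.zpowers g ⊔ B).IsSubnormal) : (Subgroup.zpowers g ⊔ A).IsSubnormal := by
  refine Subgroup.IsSubnormal.step _ _ (sup_le_sup_left hAB _) h ?_
  rw [Subgroup.normal_subgroupOf_iff_le_normalizer (sup_le_sup_left hAB _)]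
  refine sup_le (le_trans le_sup_left Subgroup.le_normalizer) ?_
  have key : ∀ b ∈ B, ∀ x ∈ Subgroup.zpowers g ⊔ A, b * x * b⁻¹ ∈ Subgroup.zpowers g ⊔ A := by
    intro b hb
    have : Subgroup.zpowers g ⊔ A ≤
        (Subgroup.zpowers g ⊔ A).comap (MulAut.conj b).toMonoidHom := by
      refine sup_le ?_ fun a ha => Subgroup.mem_sup_right (h1 b hb a ha)
      rw [Subgroup.zpowers_le]
      have e : b * g * b⁻¹ = (b * g * b⁻¹ * g⁻¹) * g := by group
      change b * g * b⁻¹ ∈ Subgroup.zpowers g ⊔ A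
      rw [e]
      exact mul_mem (Subgroup.mem_sup_right (h2 b hb))
        (Subgroup.mem_sup_left (Subgroup.mem_zpowers g))
    exact fun x hx => this hx
  intro b hb
  rw [Subgroup.mem_normalizer_iff]
  refine fun x => ⟨key b hb x, fun hx => ?_⟩
  have := key b⁻¹ (inv_mem hb) _ hx
  simpa [mul_assoc] using this

abbrev K := ZMod 2
abbrev P := MvPolynomial ℚ K
abbrev A := P ≃ₐ[K] P

theorem two (p : P) : p + p = 0 := CharTwo.add_self_eq_zero p

noncomputable def t (a b : ℚ) : P →ₐ[K] P := aeval fun i => if i = b then X b + X a else X i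

theorem t_X (a b i : ℚ) : t a b (X i) = if i = b then X b + X a else X i := by simp [t]

theorem tt {a b : ℚ} (h : a < b) : (t a b).comp (t a b) = AlgHom.id K P := by
  ext1 i
  by_cases hi : i = b
  · subst hi
    simp [t_X, h.ne, add_assoc, two]
  · simp [t_X, hi]

noncomputable def τ {a b : ℚ} (h : a < b) : A := AlgEquiv.ofAlgHom (t a b) (t a b) (tt h) (tt h)

theorem τ_X {a b : ℚ} (h : a < b) (i : ℚ) :
    τ h (X i) = if i = b then X b + X a else X i := t_X a b i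

theorem aext {σ ρ : A} (h : ∀ i, σ (X i) = ρ (X i)) : σ = ρ := by
  have : (σ : P →ₐ[K] P) = ρ := MvPolynomial.algHom_ext h
  exact AlgEquiv.ext fun p => congrArg (fun f : P →ₐ[K] P => f p) this

theorem τ_comm {c a b : ℚ} (h1 : c < a) (h2 : a < b) :
    τ h1 * τ h2 = τ (h1.trans h2) * τ h2 * τ h1 := by
  refine aext fun i => ?_
  have n1 := h1.ne
  have n2 := h2.ne
  have n3 := (h1.trans h2).ne
  by_cases hb : i = b
  · subst hb
    simp [τ_X, n1, n2, n3, n2.symm]
    ring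
  · by_cases ha : i = a
    · subst ha
      simp [τ_X, n1, n2, n3]
    · simp [τ_X, ha, hb]

theorem τ_cc {a b c d : ℚ} (h1 : a < b) (h2 : c < d) (n1 : a ≠ d) (n2 : b ≠ c) (n3 : b ≠ d) :
    τ h1 * τ h2 = τ h2 * τ h1 := by
  refine aext fun i => ?_
  by_cases hb : i = b
  · subst hb
    simp [τ_X, n1, n2, n3, h1.ne]
  · by_cases hd : i = d
    · subst hd
      simp [τ_X, hb, n2.symm, h2.ne]
    · simp [τ_X, hb, hd]

theorem fix (w : P) : ∃ T : Finset ℚ, ∀ (a b : ℚ) (h : a < b), b ∉ T → τ h w = w := by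
  induction w using MvPolynomial.induction_on with
  | C c => exact ⟨∅, fun a b h _ => (τ h).commutes c⟩
  | add p q hp hq =>
    obtain ⟨T, hT⟩ := hp
    obtain ⟨U, hU⟩ := hq
    refine ⟨T ∪ U, fun a b h hb => ?_⟩
    rw [Finset.notMem_union] at hb
    rw [map_add, hT a b h hb.1, hU a b h hb.2]
  | mul_X p i hp =>
    obtain ⟨T, hT⟩ := hp
    refine ⟨insert i T, fun a b h hb => ?_⟩
    rw [Finset.mem_insert, not_or] at hb
    rw [map_mul, hT a b h hb.2, τ_X, if_neg (Ne.symm hb.1)]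

def gens : Set A := {σ | ∃ (a b : ℚ) (h : a < b), σ = τ h}
noncomputable def Q : Subgroup A := Subgroup.closure gens
noncomputable def q {a b : ℚ} (h : a < b) : Q := ⟨τ h, Subgroup.subset_closure ⟨a, b, h, rfl⟩⟩

theorem supp (σ : A) (hσ : σ ∈ Q) : ∃ T : Finset ℚ, ∀ (a b : ℚ) (h : a < b), a ∉ T → b ∉ T →
    Commute (τ h) σ := by
  induction hσ using Subgroup.closure_induction with
  | mem σ h =>
    obtain ⟨c, d, h2, rfl⟩ := h
    refine ⟨{c, d}, fun a b h ha hb => ?_⟩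
    simp only [Finset.mem_insert, Finset.mem_singleton, not_or] at ha hb
    exact τ_cc h h2 ha.2 hb.1 hb.2
  | one => exact ⟨∅, fun _ _ _ _ _ => Commute.one_right _⟩
  | mul x y _ _ hx hy =>
    obtain ⟨T, hT⟩ := hx
    obtain ⟨U, hU⟩ := hy
    refine ⟨T ∪ U, fun a b h ha hb => ?_⟩
    rw [Finset.notMem_union] at ha hb
    exact (hT a b h ha.1 hb.1).mul_right (hU a b h ha.2 hb.2)
  | inv x _ hx =>
    obtain ⟨T, hT⟩ := hx
    exact ⟨T, fun a b h ha hb => (hT a b h ha hb).inv_right⟩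

def lev (S : Finset ℚ) (c : ℚ) : ℕ := (S.filter (· < c)).card

theorem lev_mono (S : Finset ℚ) {a b : ℚ} (h : a < b) : lev S a ≤ lev S b :=
  Finset.card_le_card fun s hs => by
    rw [Finset.mem_filter] at hs ⊢
    exact ⟨hs.1, hs.2.trans h⟩

theorem lev_lt (S : Finset ℚ) {a b : ℚ} (h : a < b) (ha : a ∈ S) : lev S a < lev S b := by
  apply Finset.card_lt_card
  refine ⟨fun s hs => ?_, fun hh => ?_⟩
  · rw [Finset.mem_filter] at hs ⊢
    exact ⟨hs.1, hs.2.trans h⟩
  · have := hh (Finset.mem_filter.2 ⟨ha, h⟩)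
    simp at this

noncomputable def F (S : Finset ℚ) (j : ℕ) : Submodule K P :=
  Submodule.span K {p | ∃ c, lev S c < j ∧ p = X c}

theorem X_mem (S : Finset ℚ) {j : ℕ} {c : ℚ} (h : lev S c < j) : (X c : P) ∈ F S j :=
  Submodule.subset_span ⟨c, h, rfl⟩

theorem F_zero (S : Finset ℚ) (p : P) (h : p ∈ F S 0) : p = 0 := by
  have : F S 0 = ⊥ := by
    rw [F, Submodule.span_eq_bot]
    rintro _ ⟨c, hc, -⟩
    omega
  rwa [this, Submodule.mem_bot] at h

theorem span_ind (S : Finset ℚ) (j : ℕ) (f : P →ₗ[K] P) (U : Submodule K P)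
    (h : ∀ c, lev S c < j → f (X c) ∈ U) : ∀ p ∈ F S j, f p ∈ U := by
  have : F S j ≤ U.comap f := by
    rw [F, Submodule.span_le]
    rintro _ ⟨c, hc, rfl⟩
    exact h c hc
  exact fun p hp => this hp

theorem τ_inv {a b : ℚ} (h : a < b) : (τ h)⁻¹ = τ h := rfl

theorem pres (σ : A) (hσ : σ ∈ Q) (S : Finset ℚ) (j : ℕ) : ∀ p ∈ F S j, σ p ∈ F S j := by
  have : (∀ p ∈ F S j, σ p ∈ F S j) ∧ ∀ p ∈ F S j, σ⁻¹ p ∈ F S j := by
    induction hσ using Subgroup.closure_induction with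
    | mem σ h =>
      obtain ⟨a, b, h, rfl⟩ := h
      have : ∀ p ∈ F S j, τ h p ∈ F S j := by
        refine span_ind S j (τ h).toLinearMap _ fun c hc => ?_
        change τ h (X c) ∈ _
        rw [τ_X]
        split_ifs with e
        · subst e
          exact add_mem (X_mem S hc) (X_mem S ((lev_mono S h).trans_lt hc))
        · exact X_mem S hc
      exact ⟨this, this⟩
    | one => exact ⟨fun p hp => hp, fun p hp => hp⟩
    | mul x y _ _ hx hy =>
      refine ⟨fun p hp => hx.1 _ (hy.1 p hp), fun p hp => ?_⟩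
      rw [mul_inv_rev]
      exact hy.2 _ (hx.2 p hp)
    | inv x _ hx => exact ⟨hx.2, by simpa using hx.1⟩
  exact this.1

noncomputable def N (S : Finset ℚ) (k : ℕ) : Subgroup Q where
  carrier := {σ | ∀ j, ∀ p ∈ F S j, σ.1 p - p ∈ F S (j - k)}
  one_mem' := fun j p _ => by simp
  mul_mem' := by
    intro σ ρ h1 h2 j p hp
    have e : (σ * ρ).1 p - p = σ.1 (ρ.1 p - p) + (σ.1 p - p) := by simp
    rw [e]
    exact add_mem (pres _ σ.2 _ _ _ (h2 j p hp)) (h1 j p hp)
  inv_mem' := by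
    intro σ h1 j p hp
    have e : (σ⁻¹).1 p - p = - (σ⁻¹).1 (σ.1 p - p) := by simp
    rw [e]
    exact neg_mem (pres _ (σ⁻¹).2 _ _ _ (h1 j p hp))

theorem N_conj (S : Finset ℚ) (k : ℕ) (ρ σ : Q) (h : σ ∈ N S k) : ρ * σ * ρ⁻¹ ∈ N S k := by
  intro j p hp
  have e : (ρ * σ * ρ⁻¹).1 p - p = ρ.1 (σ.1 ((ρ⁻¹).1 p) - (ρ⁻¹).1 p) := by simp
  rw [e]
  exact pres _ ρ.2 _ _ _ (h j _ (pres _ (ρ⁻¹).2 _ _ _ hp))

theorem F_mono (S : Finset ℚ) {i j : ℕ} (h : i ≤ j) : F S i ≤ F S j :=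
  Submodule.span_mono fun _ ⟨c, hc, e⟩ => ⟨c, hc.trans_le h, e⟩

theorem N_anti (S : Finset ℚ) (k : ℕ) : N S (k + 1) ≤ N S k :=
  fun _ h j p hp => F_mono S (by omega) (h j p hp)

theorem N_comm (S : Finset ℚ) (k : ℕ) (σ ρ : Q) (h1 : σ ∈ N S k) (h2 : ρ ∈ N S 1) :
    σ * ρ * σ⁻¹ * ρ⁻¹ ∈ N S (k + 1) := by
  intro j p hp
  have hu : (σ⁻¹).1 ((ρ⁻¹).1 p) ∈ F S j := pres _ (σ⁻¹).2 _ _ _ (pres _ (ρ⁻¹).2 _ _ _ hp)
  have e0 : ρ.1 (σ.1 ((σ⁻¹).1 ((ρ⁻¹).1 p))) = p := by simp
  have e1 : (σ * ρ * σ⁻¹ * ρ⁻¹).1 p = σ.1 (ρ.1 ((σ⁻¹).1 ((ρ⁻¹).1 p))) := rfl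
  generalize (σ⁻¹).1 ((ρ⁻¹).1 p) = u at hu e0 e1
  have e : σ.1 (ρ.1 u) - p = (σ.1 (ρ.1 u - u) - (ρ.1 u - u)) - (ρ.1 (σ.1 u - u) - (σ.1 u - u)) := by
    rw [← e0, map_sub, map_sub]
    ring
  rw [e1, e]
  exact sub_mem (F_mono S (by omega) (h1 _ _ (h2 j u hu)))
    (F_mono S (by omega) (h2 _ _ (h1 j u hu)))

theorem lev_le (S : Finset ℚ) (c : ℚ) : lev S c < S.card + 1 :=
  Nat.lt_succ_of_le (Finset.card_filter_le _ _)

theorem N_top (S : Finset ℚ) (σ : Q) (h : σ ∈ N S (S.card + 1)) : σ = 1 := by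
  refine Subtype.ext (aext fun i => ?_)
  have := h _ _ (X_mem S (lev_le S i))
  rw [Nat.sub_self] at this
  exact sub_eq_zero.1 (F_zero S _ this)

theorem ex_N (σ : A) (hσ : σ ∈ Q) : ∃ S0 : Finset ℚ, ∀ S, S0 ⊆ S → (⟨σ, hσ⟩ : Q) ∈ N S 1 := by
  induction hσ using Subgroup.closure_induction with
  | mem σ h =>
    obtain ⟨a, b, h, rfl⟩ := h
    refine ⟨{a}, fun S hS j => ?_⟩
    refine span_ind S j ((τ h).toLinearMap - LinearMap.id) _ fun c hc => ?_
    change τ h (X c) - X c ∈ _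
    rw [τ_X]
    split_ifs with e
    · subst e
      have := lev_lt S h (hS (by simp))
      rw [add_sub_cancel_left]
      exact X_mem S (by omega)
    · simp
  | one =>
    refine ⟨∅, fun S _ => ?_⟩
    have e : (⟨1, one_mem Q⟩ : Q) = 1 := Subtype.ext rfl
    rw [e]
    exact (N S 1).one_mem
  | mul x y hx' hy' hx hy =>
    obtain ⟨T, hT⟩ := hx
    obtain ⟨U, hU⟩ := hy
    refine ⟨T ∪ U, fun S hS => ?_⟩
    have e : (⟨x * y, mul_mem hx' hy'⟩ : Q) = ⟨x, hx'⟩ * ⟨y, hy'⟩ := Subtype.ext rfl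
    rw [e]
    exact (N S 1).mul_mem (hT S (Finset.subset_union_left.trans hS))
      (hU S (Finset.subset_union_right.trans hS))
  | inv x hx' hx =>
    obtain ⟨T, hT⟩ := hx
    refine ⟨T, fun S hS => ?_⟩
    have e : (⟨x⁻¹, inv_mem hx'⟩ : Q) = (⟨x, hx'⟩ : Q)⁻¹ := Subtype.ext rfl
    rw [e]
    exact (N S 1).inv_mem (hT S hS)

abbrev E := Module.End K P

theorem pow2 (f : E) (k : ℕ) : (f - 1) ^ 2 ^ k = f ^ 2 ^ k - 1 := by
  have h2 : ∀ g : E, g + g = 0 := fun g => LinearMap.ext fun p => two _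
  induction k with
  | zero => simp
  | succ k ih =>
    rw [pow_succ, pow_mul, ih, pow_mul, sq, sq]
    generalize f ^ 2 ^ k = g
    have : (g - 1) * (g - 1) = g * g - 1 - (g + g) + (1 + 1) := by
      rw [sub_mul, mul_sub, mul_sub]
      simp only [mul_one, one_mul]
      abel
    rw [this, h2, h2]
    simp

theorem unip (σ : Q) : ∃ n : ℕ, (σ.1.toLinearMap - 1 : E) ^ n = 0 := by
  obtain ⟨S, hS⟩ := ex_N σ.1 σ.2
  have h := hS S subset_rfl
  have key : ∀ n j, ∀ p ∈ F S j, ((σ.1.toLinearMap - 1 : E) ^ n) p ∈ F S (j - n) := by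
    intro n
    induction n with
    | zero => intro j p hp; simpa using hp
    | succ n ih =>
      intro j p hp
      rw [pow_succ', Module.End.mul_apply]
      exact F_mono S (by omega) (h _ _ (ih j p hp))
  have hp : ∀ n : ℕ, (σ.1.toLinearMap : E) ^ n = (σ.1 ^ n).toLinearMap := by
    intro n
    induction n with
    | zero => rfl
    | succ n ih => rw [pow_succ, pow_succ, ih]; rfl
  refine ⟨2 ^ (S.card + 1), ?_⟩
  have h1 : σ.1 ^ 2 ^ (S.card + 1) = 1 := by
    refine aext fun i => ?_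
    have h3 := key (2 ^ (S.card + 1)) _ _ (X_mem S (lev_le S i))
    have h4 : S.card + 1 - 2 ^ (S.card + 1) = 0 :=
      Nat.sub_eq_zero_of_le (Nat.lt_two_pow_self).le
    rw [h4, pow2, hp] at h3
    exact sub_eq_zero.1 (F_zero S _ h3)
  rw [pow2, hp, h1]
  exact sub_self _

noncomputable def φ : Q →* MulAut (Multiplicative P) where
  toFun σ := AddEquiv.toMultiplicative σ.1.toAddEquiv
  map_one' := rfl
  map_mul' _ _ := rfl

abbrev G := SemidirectProduct (Multiplicative P) Q φ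

noncomputable def il (p : P) : G := SemidirectProduct.inl (Multiplicative.ofAdd p)
noncomputable def ir (σ : Q) : G := SemidirectProduct.inr σ

theorem il_add (p r : P) : il (p + r) = il p * il r := by
  rw [il, ofAdd_add, map_mul]; rfl

theorem il_neg (p : P) : il (-p) = (il p)⁻¹ := by
  rw [il, ofAdd_neg, map_inv]; rfl

theorem dec (g : G) : g = il g.left.toAdd * ir g.right :=
  (SemidirectProduct.inl_left_mul_inr_right g).symm

theorem ir_conj (σ : Q) (p : P) : ir σ * il p * (ir σ)⁻¹ = il (σ.1 p) := by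
  rw [ir, il, il, ← map_inv, ← SemidirectProduct.inl_aut]; rfl

theorem conj_il (g : G) (p : P) : g * il p * g⁻¹ = il (g.right.1 p) := by
  have e : g * il p * g⁻¹ =
      il g.left.toAdd * (ir g.right * il p * (ir g.right)⁻¹) * (il g.left.toAdd)⁻¹ := by
    conv_lhs => rw [dec g]
    group
  rw [e, ir_conj, ← il_neg, ← il_add, ← il_add]
  congr 1
  ring

theorem comm_il (g : G) (p : P) : g * il p * g⁻¹ * (il p)⁻¹ = il (g.right.1 p - p) := by
  rw [conj_il, ← il_neg, ← il_add, sub_eq_add_neg]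

noncomputable def W (U : Submodule K P) : Subgroup G where
  carrier := {g | ∃ p ∈ U, g = il p}
  one_mem' := ⟨0, U.zero_mem, by simp [il]⟩
  mul_mem' := by
    rintro _ _ ⟨p, hp, rfl⟩ ⟨r, hr, rfl⟩
    exact ⟨p + r, add_mem hp hr, (il_add p r).symm⟩
  inv_mem' := by
    rintro _ ⟨p, hp, rfl⟩
    exact ⟨-p, neg_mem hp, (il_neg p).symm⟩

theorem baer (g : G) : (Subgroup.zpowers g).IsSubnormal := by
  obtain ⟨S, hS⟩ := ex_N g.right.1 g.right.2
  have hg : g.right ∈ N S 1 := hS S subset_rfl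
  let B : ℕ → Subgroup G := fun k => (N S k).comap SemidirectProduct.rightHom
  have hB : ∀ k, (Subgroup.zpowers g ⊔ B k).IsSubnormal := by
    intro k
    induction k with
    | zero =>
      have : B 0 = ⊤ := by
        rw [eq_top_iff]
        intro x _ j p hp
        exact sub_mem (pres _ x.right.2 _ _ _ hp) hp
      rw [this, sup_top_eq]
      exact Subgroup.IsSubnormal.top
    | succ k ih =>
      exact sub_step g _ _ (Subgroup.comap_mono (N_anti S k))
        (fun b _ a ha => N_conj S _ b.right a.right ha)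
        (fun b hb => N_comm S k b.right g.right hb hg) ih
  obtain ⟨n, hn⟩ := unip g.right
  let D : E := g.right.1.toLinearMap - 1
  have hW : ∀ k, (Subgroup.zpowers g ⊔ W (LinearMap.range (D ^ k))).IsSubnormal := by
    intro k
    induction k with
    | zero =>
      have : W (LinearMap.range (D ^ 0)) = B (S.card + 1) := by
        ext x
        constructor
        · rintro ⟨p, -, rfl⟩
          exact one_mem (N S _)
        · intro hx
          refine ⟨x.left.toAdd, ⟨x.left.toAdd, rfl⟩, ?_⟩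
          have h1 : x.right = 1 := N_top S _ hx
          conv_lhs => rw [dec x, h1]
          simp [ir]
      rw [this]
      exact hB _
    | succ k ih =>
      refine sub_step g _ _ ?_ ?_ ?_ ih
      · rintro _ ⟨_, ⟨p, rfl⟩, rfl⟩
        exact ⟨_, ⟨D p, by rw [pow_succ]; rfl⟩, rfl⟩
      · rintro _ ⟨r, -, rfl⟩ _ ⟨p, hp, rfl⟩
        exact ⟨p, hp, conj_il _ _⟩
      · rintro _ ⟨_, ⟨p, rfl⟩, rfl⟩
        have e : il ((D ^ k) p) * g * (il ((D ^ k) p))⁻¹ * g⁻¹ =
            (g * il ((D ^ k) p) * g⁻¹ * (il ((D ^ k) p))⁻¹)⁻¹ := by group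
        rw [e, comm_il]
        exact inv_mem ⟨_, ⟨p, by rw [pow_succ']; rfl⟩, rfl⟩
  have h0 : W (LinearMap.range (D ^ n)) ≤ Subgroup.zpowers g := by
    rintro _ ⟨_, ⟨p, rfl⟩, rfl⟩
    have : (D ^ n) p = 0 := by rw [show D ^ n = 0 from hn]; rfl
    rw [this]
    simp [il]
  have := hW n
  rwa [sup_eq_left.2 h0] at this

theorem q_comm {c a b : ℚ} (h1 : c < a) (h2 : a < b) :
    ir (q (h1.trans h2)) = ir (q h1) * ir (q h2) * (ir (q h1))⁻¹ * (ir (q h2))⁻¹ := by
  have : q h1 * q h2 = q (h1.trans h2) * q h2 * q h1 := Subtype.ext (τ_comm h1 h2)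
  have e : ir (q h1) * ir (q h2) = ir (q (h1.trans h2)) * ir (q h2) * ir (q h1) := by
    simp only [ir, ← map_mul, this]
  rw [e]
  group

theorem up_left (M : Subgroup G) [hM : M.Normal] {c a b : ℚ} (h1 : c < a) (h2 : a < b)
    (h : ir (q h2) ∈ M) : ir (q (h1.trans h2)) ∈ M := by
  rw [q_comm h1 h2]
  exact mul_mem (hM.conj_mem _ h _) (inv_mem h)

theorem up_right (M : Subgroup G) [hM : M.Normal] {c a b : ℚ} (h1 : c < a) (h2 : a < b)
    (h : ir (q h1) ∈ M) : ir (q (h1.trans h2)) ∈ M := by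
  rw [q_comm h1 h2, mul_assoc, mul_assoc, ← mul_assoc (ir (q h2))]
  exact mul_mem h (hM.conj_mem _ (inv_mem h) _)

theorem fresh {a d : ℚ} (h : a < d) (w : P) (hw : τ h w = w) :
    ir (q h) * il (X d * w) * (ir (q h))⁻¹ * (il (X d * w))⁻¹ = il (X a * w) := by
  rw [comm_il]
  congr 1
  change τ h (X d * w) - X d * w = _
  rw [map_mul, hw, τ_X, if_pos rfl]
  ring

theorem pseudo (g x : G) :
    x ∈ Subgroup.normalClosure (Subgroup.centralizer {g} : Set G) := by
  set M := Subgroup.normalClosure (Subgroup.centralizer {g} : Set G)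
  have hM : M.Normal := Subgroup.normalClosure_normal
  obtain ⟨T, hT⟩ := supp g.right.1 g.right.2
  obtain ⟨U, hU⟩ := fix g.left.toAdd
  have h1 : ∀ (c d : ℚ) (h : c < d), ir (q h) ∈ M := by
    intro c d h
    obtain ⟨a, ⟨ha1, ha2⟩, ha⟩ := (Set.Ioo_infinite h).exists_notMem_finset T
    obtain ⟨b, ⟨hb1, hb2⟩, hb⟩ := (Set.Ioo_infinite ha2).exists_notMem_finset (T ∪ U)
    rw [Finset.notMem_union] at hb
    have : ir (q hb1) ∈ M := by
      apply Subgroup.subset_normalClosure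
      rw [SetLike.mem_coe, Subgroup.mem_centralizer_singleton_iff]
      have e1 : q hb1 * g.right = g.right * q hb1 := Subtype.ext (hT a b hb1 ha hb.1)
      have e2 : ir (q hb1) * ir g.right = ir g.right * ir (q hb1) := by
        simp only [ir, ← map_mul, e1]
      have e3 := ir_conj (q hb1) g.left.toAdd
      rw [show (q hb1).1 g.left.toAdd = g.left.toAdd from hU a b hb1 hb.2,
        mul_inv_eq_iff_eq_mul] at e3
      conv_lhs => rw [dec g]
      conv_rhs => rw [dec g]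
      rw [← mul_assoc, e3, mul_assoc, e2, mul_assoc]
    exact up_right M (ha1.trans hb1) hb2 (up_left M ha1 hb1 this)
  have h2 : ∀ (σ : A) (hσ : σ ∈ Q), ir ⟨σ, hσ⟩ ∈ M := by
    intro σ hσ
    induction hσ using Subgroup.closure_induction with
    | mem σ h =>
      obtain ⟨a, b, h, rfl⟩ := h
      exact h1 a b h
    | one => exact one_mem M
    | mul x y hx' hy' hx hy =>
      have := mul_mem hx hy
      rwa [ir, ir, ← map_mul] at this
    | inv x hx' hx =>
      have := inv_mem hx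
      rwa [ir, ← map_inv] at this
  have h3 : ∀ p : P, il p ∈ M := by
    intro p
    induction p using MvPolynomial.induction_on with
    | C c =>
      apply Subgroup.subset_normalClosure
      rw [SetLike.mem_coe, Subgroup.mem_centralizer_singleton_iff]
      have := conj_il g (C c)
      rw [show g.right.1 (C c) = C c from g.right.1.commutes c, mul_inv_eq_iff_eq_mul] at this
      exact this.symm
    | add p r hp hr => rw [il_add]; exact mul_mem hp hr
    | mul_X p i _ =>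
      obtain ⟨V, hV⟩ := fix p
      obtain ⟨d, hd, hd'⟩ := (Set.Ioi_infinite i).exists_notMem_finset V
      rw [mul_comm, ← fresh hd p (hV i d hd hd'), mul_assoc, mul_assoc,
        ← mul_assoc (il (X d * p))]
      exact mul_mem (h1 _ _ _) (hM.conj_mem _ (inv_mem (h1 _ _ _)) _)
  rw [dec x]
  exact mul_mem (h3 _) (h2 _ x.right.2)

theorem not_fit (M : Subgroup G) (hM : M.Normal) (hn : Group.IsNilpotent M) :
    ir (q (zero_lt_one' ℚ)) ∉ M := by
  intro h
  have key : ∀ (k : ℕ) (w : P), ∃ hm : il (X 0 * (X 0 ^ k * w)) ∈ M,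
      (⟨_, hm⟩ : M) ∈ (⊤ : Subgroup M).lowerCentralSeries k := by
    intro k
    induction k with
    | zero =>
      intro w
      obtain ⟨V, hV⟩ := fix (X 0 ^ 0 * w)
      obtain ⟨d, hd, hd'⟩ := (Set.Ioi_infinite (1 : ℚ)).exists_notMem_finset V
      have h1 := up_right M (zero_lt_one' ℚ) hd h
      refine ⟨?_, trivial⟩
      rw [← fresh _ _ (hV 0 d ((zero_lt_one' ℚ).trans hd) hd'), mul_assoc, mul_assoc, ← mul_assoc (il _)]
      exact mul_mem h1 (hM.conj_mem _ (inv_mem h1) _)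
    | succ k ih =>
      intro w
      obtain ⟨V, hV⟩ := fix (X 0 ^ (k + 1) * w)
      obtain ⟨d, hd, hd'⟩ := (Set.Ioi_infinite (1 : ℚ)).exists_notMem_finset V
      have h1 := up_right M (zero_lt_one' ℚ) hd h
      obtain ⟨hm, hl⟩ := ih (X d * w)
      have e : (X 0 * (X 0 ^ k * (X d * w)) : P) = X d * (X 0 ^ (k + 1) * w) := by ring
      have e2 := fresh _ _ (hV 0 d ((zero_lt_one' ℚ).trans hd) hd')
      rw [← e] at e2
      have hm' : il (X 0 * (X 0 ^ (k + 1) * w)) ∈ M := by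
        rw [← e2]
        exact mul_mem (mul_mem (mul_mem h1 hm) (inv_mem h1)) (inv_mem hm)
      have e3 : (⟨_, hm'⟩ : M) = ⁅(⟨_, h1⟩ : M), (⟨_, hm⟩ : M)⁆ := Subtype.ext e2.symm
      refine ⟨hm', ?_⟩
      have := inv_mem (Subgroup.commutator_mem_commutator hl
        (Subgroup.mem_top (⟨_, h1⟩ : M)))
      rw [commutatorElement_inv] at this
      rw [e3]
      exact this
  obtain ⟨n, hn'⟩ := Subgroup.nilpotent_iff_lowerCentralSeries.1 hn
  obtain ⟨hm, hl⟩ := key n 1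
  rw [hn', Subgroup.mem_bot] at hl
  have h2 : il (X 0 * (X 0 ^ n * 1)) = 1 := congrArg Subtype.val hl
  have h3 : (X 0 * (X 0 ^ n * 1) : P) = 0 := congrArg (fun z : G => z.left.toAdd) h2
  simp at h3

/-- A pseudocentral Baer group that is not a Fitting group. -/
theorem result : ∃ (G : Type) (_ : Group G),
    (⨅ g : G, Subgroup.normalClosure (Subgroup.centralizer {g} : Set G)) = ⊤ ∧
    (∀ g : G, (Subgroup.zpowers g).IsSubnormal) ∧
    ¬ (∀ g : G, ∃ M : Subgroup G, M.Normal ∧ Group.IsNilpotent M ∧ g ∈ M) := by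
  refine ⟨G, inferInstance, ?_, baer, fun h => ?_⟩
  · rw [eq_top_iff]
    exact fun x _ => Subgroup.mem_iInf.2 fun g => pseudo g x
  · obtain ⟨M, h1, h2, h3⟩ := h (ir (q (zero_lt_one' ℚ)))
    exact not_fit M h1 h2 h3

end Pool.Agent.Results.MP_a7b7fa_al.Example
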